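import Mathlib

/-!
# Mertens' first theorem

* `abs_sum_vonMangoldt_div_sub_log_le` : `|∑_{n ≤ x} Λ n / n - log x| ≤ log 4 + 4` for `x ≥ 1`.
* `exists_abs_sum_log_div_prime_sub_log_le` : `∑_{p ≤ x} log p / p = log x + O(1)`.
-/

namespace Pool.Agent.Lib.Mertens

open Finset Real ArithmeticFunction

/-- `log N! = ∑_{d ≤ N} Λ d ⌊N / d⌋`. -/
theorem log_factorial_eq_sum (N : ℕ) :
    Real.log (N.factorial : ℝ) = ∑ d ∈ Ioc 0 N, vonMangoldt d * ((N / d : ℕ) : ℝ) := by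
  rw [← sum_Ioc_mul_zeta_eq_sum, vonMangoldt_mul_zeta]
  induction N with
  | zero => simp
  | succ n ih =>
    rw [Nat.factorial_succ, Nat.cast_mul, Real.log_mul (by positivity) (by positivity), ih,
      Finset.sum_Ioc_succ_top (Nat.zero_le n)]
    simp [ArithmeticFunction.log_apply, add_comm]

theorem log_factorial_le (N : ℕ) : Real.log (N.factorial : ℝ) ≤ N * Real.log N := by
  rcases N.eq_zero_or_pos with rfl | hN
  · simp
  rw [← Real.log_pow]
  apply Real.log_le_log (by positivity)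
  exact_mod_cast Nat.factorial_le_pow N

theorem le_log_factorial (N : ℕ) : N * Real.log N - N ≤ Real.log (N.factorial : ℝ) := by
  rcases N.eq_zero_or_pos with rfl | hN
  · simp
  have h := Stirling.le_log_factorial_stirling hN.ne'
  have h1 : 0 ≤ Real.log (N : ℝ) := Real.log_natCast_nonneg N
  have h2 : 0 ≤ Real.log (2 * π) := Real.log_nonneg (by linarith [Real.pi_gt_three])
  linarith

theorem sum_vonMangoldt_div_le_nat {N : ℕ} (hN : 0 < N) :
    ∑ d ∈ Ioc 0 N, vonMangoldt d / (d : ℝ) ≤ Real.log N + (Real.log 4 + 4) := by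
  have hN' : (0 : ℝ) < N := by exact_mod_cast hN
  have hψ := Chebyshev.psi_le_const_mul_self hN'.le
  have h1 : (N : ℝ) * ∑ d ∈ Ioc 0 N, vonMangoldt d / (d : ℝ) ≤
      Real.log (N.factorial : ℝ) + Chebyshev.psi N := by
    rw [log_factorial_eq_sum, Chebyshev.psi, Nat.floor_natCast, ← sum_add_distrib, mul_sum]
    refine sum_le_sum fun d hd => ?_
    have hd0 : 0 < d := (mem_Ioc.1 hd).1
    have hd' : (0 : ℝ) < d := by exact_mod_cast hd0
    have h2 : (N : ℝ) / d ≤ ((N / d : ℕ) : ℝ) + 1 := by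
      rw [div_le_iff₀ hd']
      have := Nat.lt_div_mul_add (a := N) hd0
      have h3 : (N : ℝ) < (N / d * d + d : ℕ) := by exact_mod_cast this
      push_cast at h3
      linarith
    have h4 : 0 ≤ vonMangoldt d := vonMangoldt_nonneg
    calc (N : ℝ) * (vonMangoldt d / d) = vonMangoldt d * (N / d) := by ring
      _ ≤ vonMangoldt d * (((N / d : ℕ) : ℝ) + 1) := by gcongr
      _ = _ := by ring
  have h2 := log_factorial_le N
  have h3 : (N : ℝ) * ∑ d ∈ Ioc 0 N, vonMangoldt d / (d : ℝ) ≤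
      N * (Real.log N + (Real.log 4 + 4)) := by nlinarith
  exact le_of_mul_le_mul_left h3 hN'

theorem le_sum_vonMangoldt_div_nat {N : ℕ} (hN : 0 < N) :
    Real.log N - 1 ≤ ∑ d ∈ Ioc 0 N, vonMangoldt d / (d : ℝ) := by
  have hN' : (0 : ℝ) < N := by exact_mod_cast hN
  have h1 : Real.log (N.factorial : ℝ) ≤ (N : ℝ) * ∑ d ∈ Ioc 0 N, vonMangoldt d / (d : ℝ) := by
    rw [log_factorial_eq_sum, mul_sum]
    refine sum_le_sum fun d hd => ?_
    have h2 : ((N / d : ℕ) : ℝ) ≤ (N : ℝ) / d := Nat.cast_div_le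
    have h4 : 0 ≤ vonMangoldt d := vonMangoldt_nonneg
    calc vonMangoldt d * ((N / d : ℕ) : ℝ) ≤ vonMangoldt d * (N / d) := by gcongr
      _ = _ := by ring
  have h2 := le_log_factorial N
  have h3 : N * (Real.log N - 1) ≤ (N : ℝ) * ∑ d ∈ Ioc 0 N, vonMangoldt d / (d : ℝ) := by
    nlinarith
  exact le_of_mul_le_mul_left h3 hN'

theorem log_floor_le {x : ℝ} (hx : 1 ≤ x) : Real.log ⌊x⌋₊ ≤ Real.log x := by
  have h : 1 ≤ ⌊x⌋₊ := (Nat.one_le_floor_iff _).2 hx
  apply Real.log_le_log (by exact_mod_cast h) (Nat.floor_le (by linarith))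

theorem log_le_log_floor_add {x : ℝ} (hx : 1 ≤ x) : Real.log x ≤ Real.log ⌊x⌋₊ + Real.log 2 := by
  have h : 1 ≤ ⌊x⌋₊ := (Nat.one_le_floor_iff _).2 hx
  have h' : (1 : ℝ) ≤ ⌊x⌋₊ := by exact_mod_cast h
  rw [← Real.log_mul (by positivity) (by norm_num)]
  apply Real.log_le_log (by linarith)
  have := Nat.lt_floor_add_one x
  linarith

/-- **Mertens' first theorem** (von Mangoldt form), with an explicit constant. -/
theorem abs_sum_vonMangoldt_div_sub_log_le {x : ℝ} (hx : 1 ≤ x) :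
    |∑ d ∈ Ioc 0 ⌊x⌋₊, vonMangoldt d / (d : ℝ) - Real.log x| ≤ Real.log 4 + 4 := by
  have h : 1 ≤ ⌊x⌋₊ := (Nat.one_le_floor_iff _).2 hx
  have h1 := sum_vonMangoldt_div_le_nat h
  have h2 := le_sum_vonMangoldt_div_nat h
  have h3 := log_floor_le hx
  have h4 := log_le_log_floor_add hx
  have h5 : Real.log 2 ≤ Real.log 4 := Real.log_le_log (by norm_num) (by norm_num)
  rw [abs_le]
  constructor <;> linarith

/-- `Λ n / n` restricted to non-primes is summable. -/
theorem summable_nonprime_vonMangoldt_div :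
    Summable fun n : ℕ => (if n.Prime then 0 else vonMangoldt n) / (n : ℝ) := by
  have := vonMangoldt.summable_residueClass_non_primes_div (q := 1) (0 : ZMod 1)
  refine this.congr fun n => ?_
  simp [vonMangoldt.residueClass, Set.indicator, Subsingleton.elim ((n : ℕ) : ZMod 1) 0]

theorem sum_vonMangoldt_div_eq (N : ℕ) :
    ∑ d ∈ Ioc 0 N, vonMangoldt d / (d : ℝ) =
      ∑ p ∈ (Ioc 0 N).filter Nat.Prime, Real.log p / p +
        ∑ d ∈ Ioc 0 N, (if d.Prime then 0 else vonMangoldt d) / (d : ℝ) := by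
  rw [sum_filter, ← sum_add_distrib]
  refine sum_congr rfl fun d _ => ?_
  split_ifs with h
  · simp [vonMangoldt_apply_prime h]
  · simp

/-- **Mertens' first theorem**: `∑_{p ≤ x} log p / p = log x + O(1)`. -/
theorem exists_abs_sum_log_div_prime_sub_log_le :
    ∃ C : ℝ, 0 < C ∧ ∀ x : ℝ, 1 ≤ x →
      |∑ p ∈ (Ioc 0 ⌊x⌋₊).filter Nat.Prime, Real.log p / p - Real.log x| ≤ C := by
  set T := ∑' n : ℕ, (if n.Prime then 0 else vonMangoldt n) / (n : ℝ) with hT
  have hnn : ∀ n : ℕ, 0 ≤ (if n.Prime then 0 else vonMangoldt n) / (n : ℝ) := fun n => by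
    have : 0 ≤ vonMangoldt n := vonMangoldt_nonneg
    split_ifs <;> positivity
  have hT0 : 0 ≤ T := tsum_nonneg hnn
  have h4 : 0 ≤ Real.log 4 := Real.log_nonneg (by norm_num)
  refine ⟨Real.log 4 + 4 + T, by positivity, fun x hx => ?_⟩
  have h1 := abs_sum_vonMangoldt_div_sub_log_le hx
  rw [sum_vonMangoldt_div_eq] at h1
  have h2 : ∑ d ∈ Ioc 0 ⌊x⌋₊, (if d.Prime then 0 else vonMangoldt d) / (d : ℝ) ≤ T :=
    summable_nonprime_vonMangoldt_div.sum_le_tsum _ (fun n _ => hnn n)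
  have h3 : 0 ≤ ∑ d ∈ Ioc 0 ⌊x⌋₊, (if d.Prime then 0 else vonMangoldt d) / (d : ℝ) :=
    sum_nonneg fun n _ => hnn n
  rw [abs_le] at h1 ⊢
  constructor <;> linarith [h1.1, h1.2]

/-- Explicit upper bound: `∑_{p ≤ x} log p / p ≤ log x + log 4 + 4`. -/
theorem sum_log_div_prime_le {x : ℝ} (hx : 1 ≤ x) :
    ∑ p ∈ (Ioc 0 ⌊x⌋₊).filter Nat.Prime, Real.log p / p ≤ Real.log x + (Real.log 4 + 4) := by
  have h1 := abs_sum_vonMangoldt_div_sub_log_le hx
  rw [sum_vonMangoldt_div_eq] at h1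
  have h3 : 0 ≤ ∑ d ∈ Ioc 0 ⌊x⌋₊, (if d.Prime then 0 else vonMangoldt d) / (d : ℝ) :=
    sum_nonneg fun n _ => by
      have : 0 ≤ vonMangoldt n := vonMangoldt_nonneg
      split_ifs <;> positivity
  rw [abs_le] at h1
  linarith [h1.2]

end Pool.Agent.Lib.Mertens
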