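import Mathlib
import Pool.Agent.Lib.Mertens.First

/-!
# Mertens' second theorem

* `abel_log` : partial summation from `∑_{n ≤ x} c n = log x + O(1)` to
  `∑_{n ≤ x} c n / log n = log log x + M + O(1 / log x)`.
* `mertens_second` : `∑_{p ≤ x} 1 / p = log log x + M + O(1 / log x)`.
* `mertens_second_vonMangoldt` : the same for `Λ n / (n log n)`.
-/

namespace Pool.Agent.Lib.Mertens

open Finset Real ArithmeticFunction MeasureTheory Filter Topology

theorem hasDerivAt_inv_log {t : ℝ} (ht : 1 < t) :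
    HasDerivAt (fun t : ℝ => (Real.log t)⁻¹) (-(t⁻¹ / (Real.log t) ^ 2)) t := by
  have h := (Real.hasDerivAt_log (x := t) (by linarith)).fun_inv (Real.log_pos ht).ne'
  rw [← neg_div]
  exact h

theorem hasDerivAt_neg_inv_log {t : ℝ} (ht : 1 < t) :
    HasDerivAt (fun t : ℝ => -(Real.log t)⁻¹) (t⁻¹ / (Real.log t) ^ 2) t := by
  have h := (hasDerivAt_inv_log ht).fun_neg
  rw [neg_neg] at h
  exact h

theorem tendsto_neg_inv_log : Tendsto (fun t : ℝ => -(Real.log t)⁻¹) atTop (𝓝 0) := by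
  simpa using (Real.tendsto_log_atTop.inv_tendsto_atTop).neg

theorem integrableOn_inv_div_log_sq {x : ℝ} (hx : 1 < x) :
    IntegrableOn (fun t : ℝ => t⁻¹ / (Real.log t) ^ 2) (Set.Ioi x) := by
  refine integrableOn_Ioi_deriv_of_nonneg' (g := fun t : ℝ => -(Real.log t)⁻¹)
    (fun t ht => hasDerivAt_neg_inv_log (lt_of_lt_of_le hx ht)) (fun t ht => ?_) tendsto_neg_inv_log
  have : 0 < t := by linarith [Set.mem_Ioi.1 ht]
  positivity

theorem integral_inv_div_log_sq {x : ℝ} (hx : 1 < x) :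
    ∫ t in Set.Ioi x, t⁻¹ / (Real.log t) ^ 2 = (Real.log x)⁻¹ := by
  rw [integral_Ioi_of_hasDerivAt_of_nonneg' (g := fun t : ℝ => -(Real.log t)⁻¹)
    (fun t ht => hasDerivAt_neg_inv_log (lt_of_lt_of_le hx ht)) (fun t ht => ?_) tendsto_neg_inv_log]
  · simp
  have : 0 < t := by linarith [Set.mem_Ioi.1 ht]
  positivity

theorem continuousOn_inv_div_log {x : ℝ} :
    ContinuousOn (fun t : ℝ => t⁻¹ / Real.log t) (Set.Icc 2 x) := by
  refine ContinuousOn.div (continuousOn_inv₀.mono fun t ht => ?_)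
    (Real.continuousOn_log.mono fun t ht => ?_) fun t ht => ?_
  · simp only [Set.mem_compl_iff, Set.mem_singleton_iff]; linarith [ht.1]
  · simp only [Set.mem_compl_iff, Set.mem_singleton_iff]; linarith [ht.1]
  · exact (Real.log_pos (by linarith [ht.1])).ne'

theorem integral_inv_div_log {x : ℝ} (hx : 2 ≤ x) :
    ∫ t in Set.Ioc 2 x, t⁻¹ / Real.log t = Real.log (Real.log x) - Real.log (Real.log 2) := by
  rw [← intervalIntegral.integral_of_le hx]
  refine intervalIntegral.integral_eq_sub_of_hasDerivAt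
    (f := fun t => Real.log (Real.log t)) (fun t ht => ?_) ?_
  · rw [Set.uIcc_of_le hx] at ht
    have h1 : 1 < t := by linarith [ht.1]
    exact (Real.hasDerivAt_log (x := t) (by linarith)).log (Real.log_pos h1).ne'
  · apply ContinuousOn.intervalIntegrable
    rw [Set.uIcc_of_le hx]
    exact continuousOn_inv_div_log

theorem sum_Icc_eq_sum_Ioc (c : ℕ → ℝ) (h0 : c 0 = 0) (N : ℕ) :
    ∑ k ∈ Icc 0 N, c k = ∑ k ∈ Ioc 0 N, c k := by
  rw [Finset.Icc_eq_cons_Ioc (Nat.zero_le N), sum_cons, h0, zero_add]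

theorem measurable_sum_floor (c : ℕ → ℝ) :
    Measurable fun t : ℝ => ∑ k ∈ Ioc 0 ⌊t⌋₊, c k :=
  (measurable_from_top (f := fun N : ℕ => ∑ k ∈ Ioc 0 N, c k)).comp Nat.measurable_floor

/-- Partial summation: if `∑_{n ≤ x} c n = log x + O(1)` then
`∑_{n ≤ x} c n / log n = log log x + M + O(1 / log x)`. -/
theorem abel_log (c : ℕ → ℝ) (h0 : c 0 = 0) (h1 : c 1 = 0) (C : ℝ)
    (hC : ∀ x : ℝ, 2 ≤ x → |∑ n ∈ Ioc 0 ⌊x⌋₊, c n - Real.log x| ≤ C) :
    ∃ M : ℝ, ∀ x : ℝ, 2 ≤ x →
      |∑ n ∈ Ioc 0 ⌊x⌋₊, c n / Real.log n - (Real.log (Real.log x) + M)| ≤ 2 * C / Real.log x := by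
  set E : ℝ → ℝ := fun t => ∑ n ∈ Ioc 0 ⌊t⌋₊, c n - Real.log t with hE
  set g : ℝ → ℝ := fun t => t⁻¹ / (Real.log t) ^ 2 with hg
  have hEm : Measurable E := (measurable_sum_floor c).sub Real.measurable_log
  have hgm : Measurable g := measurable_inv.div (Real.measurable_log.pow_const 2)
  have hgE : ∀ x : ℝ, 2 ≤ x → ∀ t ∈ Set.Ioi x, ‖g t * E t‖ ≤ C * g t := by
    intro x hx t ht
    have ht2 : 2 ≤ t := hx.trans (le_of_lt ht)
    have hg0 : 0 ≤ g t := by
      have : 0 < t := by linarith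
      simp only [hg]; positivity
    rw [Real.norm_eq_abs, abs_mul, abs_of_nonneg hg0, mul_comm]
    exact mul_le_mul_of_nonneg_right (hC t ht2) hg0
  have hint : ∀ x : ℝ, 2 ≤ x → IntegrableOn (fun t => g t * E t) (Set.Ioi x) := by
    intro x hx
    refine Integrable.mono' ((integrableOn_inv_div_log_sq (by linarith : 1 < x)).const_mul C)
      (hgm.mul hEm).aestronglyMeasurable ?_
    exact (ae_restrict_iff' measurableSet_Ioi).2 (Eventually.of_forall (hgE x hx))
  refine ⟨1 - Real.log (Real.log 2) + ∫ t in Set.Ioi 2, g t * E t, fun x hx => ?_⟩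
  have hlx : 0 < Real.log x := Real.log_pos (by linarith)
  have hderiv : ∀ t ∈ Set.Icc 2 x, deriv (fun t : ℝ => (Real.log t)⁻¹) t = -g t := fun t ht =>
    (hasDerivAt_inv_log (by linarith [ht.1])).deriv
  have hgc : ContinuousOn g (Set.Icc 2 x) := by
    refine ContinuousOn.div (continuousOn_inv₀.mono fun t ht => ?_)
      ((Real.continuousOn_log.mono fun t ht => ?_).pow 2) fun t ht => ?_
    · simp only [Set.mem_compl_iff, Set.mem_singleton_iff]; linarith [ht.1]
    · simp only [Set.mem_compl_iff, Set.mem_singleton_iff]; linarith [ht.1]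
    · exact pow_ne_zero _ (Real.log_pos (by linarith [ht.1])).ne'
  have habel := sum_mul_eq_sub_integral_mul₁ (f := fun t : ℝ => (Real.log t)⁻¹) c h0 h1 x
    (fun t ht => (hasDerivAt_inv_log (by linarith [ht.1])).differentiableAt)
    ((hgc.neg.integrableOn_Icc).congr_fun (fun t ht => (hderiv t ht).symm) measurableSet_Icc)
  rw [sum_Icc_eq_sum_Ioc _ (by simp [h0]), sum_Icc_eq_sum_Ioc _ h0] at habel
  have hI : ∫ t in Set.Ioc 2 x, deriv (fun t : ℝ => (Real.log t)⁻¹) t * ∑ k ∈ Icc 0 ⌊t⌋₊, c k =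
      -((Real.log (Real.log x) - Real.log (Real.log 2)) + ∫ t in Set.Ioc 2 x, g t * E t) := by
    rw [← integral_inv_div_log hx, ← integral_add, ← integral_neg]
    · refine setIntegral_congr_fun measurableSet_Ioc fun t ht => ?_
      have hlt : 0 < Real.log t := Real.log_pos (by linarith [ht.1])
      have ht0 : t ≠ 0 := by linarith [ht.1]
      rw [hderiv t ⟨ht.1.le, ht.2⟩, sum_Icc_eq_sum_Ioc _ h0]
      simp only [hg, hE]
      field_simp
      ring
    · exact (continuousOn_inv_div_log.integrableOn_Icc).mono_set Set.Ioc_subset_Icc_self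
    · exact (hint 2 le_rfl).mono_set Set.Ioc_subset_Ioi_self
  have hsplit : ∫ t in Set.Ioi 2, g t * E t =
      (∫ t in Set.Ioc 2 x, g t * E t) + ∫ t in Set.Ioi x, g t * E t := by
    rw [← setIntegral_union (Set.Ioc_disjoint_Ioi le_rfl) measurableSet_Ioi
      ((hint 2 le_rfl).mono_set Set.Ioc_subset_Ioi_self) (hint x hx), Set.Ioc_union_Ioi_eq_Ioi hx]
  have htail : |∫ t in Set.Ioi x, g t * E t| ≤ C / Real.log x := by
    have := norm_integral_le_of_norm_le
      ((integrableOn_inv_div_log_sq (by linarith : 1 < x)).const_mul C)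
      ((ae_restrict_iff' measurableSet_Ioi).2 (Eventually.of_forall (hgE x hx)))
    rw [integral_const_mul, integral_inv_div_log_sq (by linarith)] at this
    simpa [div_eq_mul_inv] using this
  have hsum : ∑ n ∈ Ioc 0 ⌊x⌋₊, c n / Real.log n =
      ∑ k ∈ Ioc 0 ⌊x⌋₊, (Real.log k)⁻¹ * c k := sum_congr rfl fun k _ => by ring
  have hEx : |E x / Real.log x| ≤ C / Real.log x := by
    rw [abs_div, abs_of_pos hlx]
    exact div_le_div_of_nonneg_right (hC x hx) hlx.le
  have hkey : ∑ n ∈ Ioc 0 ⌊x⌋₊, c n / Real.log n -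
      (Real.log (Real.log x) + (1 - Real.log (Real.log 2) + ∫ t in Set.Ioi 2, g t * E t)) =
      E x / Real.log x - ∫ t in Set.Ioi x, g t * E t := by
    rw [hsum, habel, hI, hsplit]
    simp only [hE]
    field_simp
    ring
  rw [hkey]
  calc _ ≤ |E x / Real.log x| + |∫ t in Set.Ioi x, g t * E t| := abs_sub _ _
    _ ≤ C / Real.log x + C / Real.log x := add_le_add hEx htail
    _ = _ := by ring

/-- **Mertens' second theorem**: `∑_{p ≤ x} 1 / p = log log x + M + O(1 / log x)`. -/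
theorem mertens_second : ∃ M C : ℝ, 0 < C ∧ ∀ x : ℝ, 2 ≤ x →
    |∑ p ∈ (Ioc 0 ⌊x⌋₊).filter Nat.Prime, (1 : ℝ) / p - (Real.log (Real.log x) + M)| ≤
      C / Real.log x := by
  obtain ⟨C, hC0, hC⟩ := exists_abs_sum_log_div_prime_sub_log_le
  obtain ⟨M, hM⟩ := abel_log (fun n => if n.Prime then Real.log n / n else 0) (by simp) (by simp) C
    (fun x hx => by rw [← sum_filter]; exact hC x (by linarith))
  refine ⟨M, 2 * C, by positivity, fun x hx => ?_⟩
  convert hM x hx using 3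
  rw [sum_filter]
  refine sum_congr rfl fun n _ => ?_
  split_ifs with h
  · have : Real.log n ≠ 0 := (Real.log_pos (by exact_mod_cast h.one_lt)).ne'
    field_simp
  · simp

/-- Mertens' second theorem for `Λ n / (n log n)`; the constant is identified as `γ` in
`Pool.Agent.Lib.Mertens.Third`. -/
theorem mertens_second_vonMangoldt : ∃ M : ℝ, ∀ x : ℝ, 2 ≤ x →
    |∑ n ∈ Ioc 0 ⌊x⌋₊, vonMangoldt n / (n * Real.log n) - (Real.log (Real.log x) + M)| ≤
      2 * (Real.log 4 + 4) / Real.log x := by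
  obtain ⟨M, hM⟩ := abel_log (fun n => vonMangoldt n / n) (by simp) (by simp) (Real.log 4 + 4)
    (fun x hx => abs_sum_vonMangoldt_div_sub_log_le (by linarith))
  refine ⟨M, fun x hx => ?_⟩
  convert hM x hx using 4 with n
  rw [div_div]

end Pool.Agent.Lib.Mertens
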