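import Mathlib
import Pool.Agent.Lib.Mertens.Second

/-!
# Mertens' third theorem

* `mertens_vonMangoldt_gamma` : `∑_{n ≤ x} Λ n / (n log n) = log log x + γ + O(1 / log x)`.
* `mertens_third_log` : `∑_{p ≤ x} -log (1 - 1/p) = log log x + γ + O(1 / log x)`.
* `mertens_third` : `log x * ∏_{p ≤ x} (1 - 1/p) → exp (-γ)`.
* `mertens_third_bounds` : `c / log x ≤ ∏_{p ≤ x} (1 - 1/p) ≤ C / log x` for `x ≥ 2`.
-/

namespace Pool.Agent.Lib.Mertens

open Finset Real ArithmeticFunction MeasureTheory Filter Topology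

/-- The step `exp (-v) * c * 1_{l ≤ v}`. -/
noncomputable def step (c l v : ℝ) : ℝ := Real.exp (-v) * (if l ≤ v then c else 0)

theorem step_eq_indicator (c l : ℝ) :
    step c l = (Set.Ici l).indicator fun v => Real.exp (-v) * c := by
  ext v
  simp only [step, Set.indicator, Set.mem_Ici]
  split_ifs <;> simp

theorem integrableOn_step (c l : ℝ) : IntegrableOn (step c l) (Set.Ioi 0) := by
  rw [step_eq_indicator]
  exact ((integrableOn_exp_neg_Ioi 0).mul_const c).indicator measurableSet_Ici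

theorem integral_step (c : ℝ) {l : ℝ} (hl : 0 ≤ l) :
    ∫ v in Set.Ioi 0, step c l v = c * Real.exp (-l) := by
  rw [step_eq_indicator, setIntegral_indicator measurableSet_Ici]
  have : ∫ v in Set.Ioi 0 ∩ Set.Ici l, Real.exp (-v) * c = ∫ v in Set.Ioi l, Real.exp (-v) * c := by
    refine setIntegral_congr_set ?_
    rcases hl.eq_or_lt with rfl | hl
    · rw [Set.inter_eq_left.2 Set.Ioi_subset_Ici_self]
    · rw [Set.inter_eq_right.2 (Set.Ici_subset_Ioi.2 hl)]
      exact Ioi_ae_eq_Ici.symm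
  rw [this, integral_mul_const, integral_exp_neg_Ioi, mul_comm]

theorem step_nonneg {c : ℝ} (hc : 0 ≤ c) (l v : ℝ) : 0 ≤ step c l v := by
  unfold step
  split_ifs <;> positivity

/-- The coefficient `Λ n / (n log n)`. -/
noncomputable def aa (n : ℕ) : ℝ := vonMangoldt n / (n * Real.log n)

theorem aa_nonneg (n : ℕ) : 0 ≤ aa n := by
  have h1 : 0 ≤ vonMangoldt n := vonMangoldt_nonneg
  have h2 : 0 ≤ Real.log n := Real.log_natCast_nonneg n
  unfold aa
  positivity

theorem aa_mul_exp (δ : ℝ) (n : ℕ) :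
    aa n * Real.exp (-(δ * Real.log n)) =
      vonMangoldt n / ((n : ℝ) ^ (1 + δ) * Real.log n) := by
  rcases n.eq_zero_or_pos with rfl | hn
  · simp [aa]
  have hn' : (0 : ℝ) < n := by exact_mod_cast hn
  rw [Real.rpow_add hn', Real.rpow_one, Real.rpow_def_of_pos hn', Real.exp_neg, aa,
    mul_comm (Real.log n) δ]
  ring

theorem summable_aa_mul_exp {δ : ℝ} (hδ : 0 < δ) :
    Summable fun n : ℕ => aa n * Real.exp (-(δ * Real.log n)) := by
  simp_rw [aa_mul_exp]
  have hs : Summable fun n : ℕ => 1 / (n : ℝ) ^ (1 + δ) :=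
    Real.summable_one_div_nat_rpow.2 (by linarith)
  refine Summable.of_nonneg_of_le (fun n => ?_) (fun n => ?_) hs
  · have h1 : 0 ≤ vonMangoldt n := vonMangoldt_nonneg
    have h2 : 0 ≤ Real.log n := Real.log_natCast_nonneg n
    positivity
  · have h2 : 0 ≤ Real.log n := Real.log_natCast_nonneg n
    rcases h2.eq_or_lt with h | h
    · rw [← h]; simp only [mul_zero, div_zero]; positivity
    · have h3 : vonMangoldt n ≤ Real.log n := vonMangoldt_le_log
      rw [mul_comm, ← div_div]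
      gcongr
      exact (div_le_one h).2 h3

theorem hasSum_inv_mul_exp {δ : ℝ} (hδ : 0 < δ) :
    HasSum (fun n : ℕ => (1 / (n : ℝ)) * Real.exp (-(δ * n))) (-Real.log (1 - Real.exp (-δ))) := by
  have h := Real.hasSum_pow_div_log_of_abs_lt_one (x := Real.exp (-δ))
    (by rw [abs_of_pos (Real.exp_pos _)]; exact Real.exp_lt_one_iff.2 (by linarith))
  rw [← hasSum_nat_add_iff' 1]
  simp only [range_one, sum_singleton, Nat.cast_zero, div_zero, zero_mul, sub_zero]
  have e : (fun n : ℕ => (1 / ((n + 1 : ℕ) : ℝ)) * Real.exp (-(δ * ((n + 1 : ℕ) : ℝ)))) =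
      fun n : ℕ => Real.exp (-δ) ^ (n + 1) / (n + 1) := by
    ext n
    rw [← Real.exp_nat_mul]
    push_cast
    rw [div_eq_mul_inv (Real.exp _), mul_comm, one_div]
    congr 2
    ring
  rw [e]
  exact h

/-- `G u = ∑_{n ≤ e^u} Λ n / (n log n) - ∑_{n ≤ u} 1 / n`. -/
noncomputable def GG (u : ℝ) : ℝ :=
  ∑ n ∈ Ioc 0 ⌊Real.exp u⌋₊, aa n - ∑ n ∈ Ioc 0 ⌊u⌋₊, 1 / (n : ℝ)

theorem measurable_GG : Measurable GG :=
  ((measurable_sum_floor aa).comp Real.measurable_exp).sub (measurable_sum_floor _)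

theorem hasSum_step_aa {δ : ℝ} (hδ : 0 < δ) (v : ℝ) :
    HasSum (fun n : ℕ => step (aa n) (δ * Real.log n) v)
      (Real.exp (-v) * ∑ n ∈ Ioc 0 ⌊Real.exp (v / δ)⌋₊, aa n) := by
  have key : ∀ n : ℕ, 0 < n → (δ * Real.log n ≤ v ↔ n ≤ ⌊Real.exp (v / δ)⌋₊) := fun n hn => by
    have hn' : (0 : ℝ) < n := by exact_mod_cast hn
    rw [Nat.le_floor_iff (Real.exp_pos _).le, ← Real.log_le_iff_le_exp hn', le_div_iff₀ hδ,
      mul_comm]
  have h := hasSum_sum_of_ne_finset_zero (L := SummationFilter.unconditional ℕ)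
    (f := fun n : ℕ => step (aa n) (δ * Real.log n) v)
    (s := Ioc 0 ⌊Real.exp (v / δ)⌋₊) (fun n hn => by
      rcases n.eq_zero_or_pos with rfl | hn0
      · simp [step, aa]
      · have : ¬ (δ * Real.log n ≤ v) := fun h => hn (mem_Ioc.2 ⟨hn0, (key n hn0).1 h⟩)
        simp [step, this])
  convert h using 1
  rw [mul_sum]
  refine sum_congr rfl fun n hn => ?_
  have := (key n (mem_Ioc.1 hn).1).2 (mem_Ioc.1 hn).2
  simp [step, this]

theorem hasSum_step_inv {δ : ℝ} (hδ : 0 < δ) {v : ℝ} (hv : 0 ≤ v) :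
    HasSum (fun n : ℕ => step (1 / (n : ℝ)) (δ * n) v)
      (Real.exp (-v) * ∑ n ∈ Ioc 0 ⌊v / δ⌋₊, 1 / (n : ℝ)) := by
  have key : ∀ n : ℕ, (δ * n ≤ v ↔ n ≤ ⌊v / δ⌋₊) := fun n => by
    rw [Nat.le_floor_iff (by positivity), le_div_iff₀ hδ, mul_comm]
  have h := hasSum_sum_of_ne_finset_zero (L := SummationFilter.unconditional ℕ)
    (f := fun n : ℕ => step (1 / (n : ℝ)) (δ * n) v)
    (s := Ioc 0 ⌊v / δ⌋₊) (fun n hn => by
      rcases n.eq_zero_or_pos with rfl | hn0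
      · simp [step]
      · have : ¬ (δ * n ≤ v) := fun h => hn (mem_Ioc.2 ⟨hn0, (key n).1 h⟩)
        simp [step, this])
  convert h using 1
  rw [mul_sum]
  refine sum_congr rfl fun n hn => ?_
  have := (key n).2 (mem_Ioc.1 hn).2
  simp [step, this]

theorem laplace_GG {δ : ℝ} (hδ : 0 < δ) :
    ∫ v in Set.Ioi 0, Real.exp (-v) * GG (v / δ) =
      Real.log (riemannZeta ((1 + δ : ℝ) : ℂ)).re + Real.log (1 - Real.exp (-δ)) := by
  set F : ℕ → ℝ → ℝ := fun n v =>
    step (aa n) (δ * Real.log n) v - step (1 / (n : ℝ)) (δ * n) v with hF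
  have hl1 : ∀ n : ℕ, 0 ≤ δ * Real.log n := fun n =>
    mul_nonneg hδ.le (Real.log_natCast_nonneg n)
  have hl2 : ∀ n : ℕ, 0 ≤ δ * (n : ℝ) := fun n => by positivity
  have hint : ∀ n, Integrable (F n) (volume.restrict (Set.Ioi 0)) := fun n =>
    (integrableOn_step _ _).sub (integrableOn_step _ _)
  have hval : ∀ n, ∫ v in Set.Ioi 0, F n v =
      aa n * Real.exp (-(δ * Real.log n)) - (1 / (n : ℝ)) * Real.exp (-(δ * n)) := fun n => by
    simp only [hF]
    rw [integral_sub (integrableOn_step _ _) (integrableOn_step _ _), integral_step _ (hl1 n),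
      integral_step _ (hl2 n)]
  have hsum : Summable fun n => ∫ v in Set.Ioi 0, ‖F n v‖ := by
    refine Summable.of_nonneg_of_le (fun n => integral_nonneg fun v => norm_nonneg _)
      (fun n => ?_) ((summable_aa_mul_exp hδ).add (hasSum_inv_mul_exp hδ).summable)
    rw [← integral_step _ (hl1 n), ← integral_step _ (hl2 n),
      ← integral_add (integrableOn_step _ _) (integrableOn_step _ _)]
    refine integral_mono (hint n).norm ((integrableOn_step _ _).add (integrableOn_step _ _))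
      fun v => ?_
    have h1 := step_nonneg (aa_nonneg n) (δ * Real.log n) v
    have h2 := step_nonneg (c := 1 / (n : ℝ)) (by positivity) (δ * n) v
    simp only [hF, Real.norm_eq_abs]
    rw [abs_le]
    constructor <;> linarith
  have h := hasSum_integral_of_summable_integral_norm hint hsum
  simp only [hval] at h
  have h2 := (summable_aa_mul_exp hδ).hasSum.sub (hasSum_inv_mul_exp hδ)
  have h3 := h.unique h2
  rw [log_riemannZeta_eq (by linarith : 1 < 1 + δ)]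
  simp_rw [← aa_mul_exp]
  rw [← sub_neg_eq_add, ← h3]
  refine setIntegral_congr_fun measurableSet_Ioi fun v hv => ?_
  have h4 := ((hasSum_step_aa hδ v).sub (hasSum_step_inv hδ (le_of_lt hv))).tsum_eq
  simp only [hF]
  rw [h4, GG]
  ring

theorem tendsto_log_zeta_add :
    Tendsto (fun δ : ℝ => Real.log (riemannZeta ((1 + δ : ℝ) : ℂ)).re +
      Real.log (1 - Real.exp (-δ))) (𝓝[>] 0) (𝓝 0) := by
  have h1 : Tendsto (fun s : ℝ => Real.log (riemannZeta s).re + Real.log (s - 1)) (𝓝[>] 1)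
      (𝓝 0) := (Asymptotics.isLittleO_one_iff ℝ).1 log_riemannZeta_add_log_sub_isLittleO_ofReal
  have h2 : Tendsto (fun δ : ℝ => 1 + δ) (𝓝[>] 0) (𝓝[>] 1) := by
    refine tendsto_nhdsWithin_of_tendsto_nhds_of_eventually_within _ ?_ ?_
    · have : Tendsto (fun δ : ℝ => 1 + δ) (𝓝 0) (𝓝 (1 + 0)) :=
        tendsto_const_nhds.add tendsto_id
      simpa using this.mono_left nhdsWithin_le_nhds
    · filter_upwards [self_mem_nhdsWithin] with δ hδ
      simpa using hδ
  have h3 := h1.comp h2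
  have hd : HasDerivAt (fun δ : ℝ => 1 - Real.exp (-δ)) 1 0 := by
    have := ((hasDerivAt_neg (0 : ℝ)).exp).const_sub 1
    simpa using this
  have h4 := hd.tendsto_slope_zero_right
  have h5 : Tendsto (fun δ : ℝ => Real.log (δ⁻¹ • ((1 - Real.exp (-(0 + δ))) - (1 - Real.exp (-0)))))
      (𝓝[>] 0) (𝓝 (Real.log 1)) := h4.log one_ne_zero
  rw [Real.log_one] at h5
  have h6 := h3.add h5
  rw [add_zero] at h6
  refine h6.congr' ?_
  filter_upwards [self_mem_nhdsWithin] with δ hδ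
  have hδ' : 0 < δ := hδ
  have h7 : 0 < 1 - Real.exp (-δ) := sub_pos.2 (Real.exp_lt_one_iff.2 (by linarith))
  simp only [Function.comp, add_sub_cancel_left, zero_add, neg_zero, Real.exp_zero, sub_self,
    sub_zero, smul_eq_mul]
  rw [Real.log_mul (by positivity) h7.ne', Real.log_inv]
  ring

theorem sum_inv_eq_harmonic (N : ℕ) : ∑ n ∈ Ioc 0 N, 1 / (n : ℝ) = (harmonic N : ℝ) := by
  rw [harmonic_eq_sum_Icc]
  push_cast
  simp only [one_div]
  rfl

theorem tendsto_sum_inv_sub_log :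
    Tendsto (fun u : ℝ => ∑ n ∈ Ioc 0 ⌊u⌋₊, 1 / (n : ℝ) - Real.log u) atTop
      (𝓝 eulerMascheroniConstant) := by
  have h1 := Real.tendsto_harmonic_sub_log.comp (tendsto_nat_floor_atTop (α := ℝ))
  have h2 : Tendsto (fun u : ℝ => Real.log ((⌊u⌋₊ : ℝ) / u)) atTop (𝓝 (Real.log 1)) :=
    tendsto_nat_floor_div_atTop.log one_ne_zero
  rw [Real.log_one] at h2
  have h3 := h1.add h2
  rw [add_zero] at h3
  refine h3.congr' ?_
  filter_upwards [eventually_ge_atTop 1] with u hu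
  have h : 1 ≤ ⌊u⌋₊ := (Nat.one_le_floor_iff _).2 hu
  have h' : (1 : ℝ) ≤ ⌊u⌋₊ := by exact_mod_cast h
  simp only [Function.comp]
  rw [sum_inv_eq_harmonic, Real.log_div (by positivity) (by positivity)]
  ring

theorem tendsto_of_abs_le_div_log {f : ℝ → ℝ} {M C : ℝ}
    (h : ∀ x : ℝ, 2 ≤ x → |f x - (Real.log (Real.log x) + M)| ≤ C / Real.log x) :
    Tendsto (fun x => f x - Real.log (Real.log x)) atTop (𝓝 M) := by
  rw [tendsto_iff_norm_sub_tendsto_zero]
  refine squeeze_zero' (Eventually.of_forall fun _ => norm_nonneg _) ?_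
    (tendsto_const_nhds.div_atTop Real.tendsto_log_atTop (a := C))
  filter_upwards [eventually_ge_atTop 2] with x hx
  rw [Real.norm_eq_abs, sub_sub]
  exact h x hx

theorem exists_bound_GG {L : ℝ} (hL : Tendsto GG atTop (𝓝 L)) : ∃ B, ∀ u, |GG u| ≤ B := by
  obtain ⟨R, hR⟩ := eventually_atTop.1 (hL.eventually (Metric.ball_mem_nhds L one_pos))
  refine ⟨max (|L| + 1) (∑ n ∈ Ioc 0 ⌊Real.exp R⌋₊, aa n + ∑ n ∈ Ioc 0 ⌊R⌋₊, 1 / (n : ℝ)),
    fun u => ?_⟩
  rcases le_total R u with h | h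
  · refine le_max_of_le_left ?_
    have := hR u h
    rw [Real.dist_eq] at this
    have h2 := abs_add_le (GG u - L) L
    rw [sub_add_cancel] at h2
    linarith
  · refine le_max_of_le_right ?_
    have h1 : ∑ n ∈ Ioc 0 ⌊Real.exp u⌋₊, aa n ≤ ∑ n ∈ Ioc 0 ⌊Real.exp R⌋₊, aa n :=
      sum_le_sum_of_subset_of_nonneg
        (Ioc_subset_Ioc_right (Nat.floor_le_floor (Real.exp_le_exp.2 h))) fun n _ _ => aa_nonneg n
    have h2 : ∑ n ∈ Ioc 0 ⌊u⌋₊, 1 / (n : ℝ) ≤ ∑ n ∈ Ioc 0 ⌊R⌋₊, 1 / (n : ℝ) :=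
      sum_le_sum_of_subset_of_nonneg
        (Ioc_subset_Ioc_right (Nat.floor_le_floor h)) fun n _ _ => by positivity
    have h3 : 0 ≤ ∑ n ∈ Ioc 0 ⌊Real.exp u⌋₊, aa n := sum_nonneg fun n _ => aa_nonneg n
    have h4 : 0 ≤ ∑ n ∈ Ioc 0 ⌊u⌋₊, 1 / (n : ℝ) := sum_nonneg fun n _ => by positivity
    rw [GG, abs_le]
    constructor <;> linarith

theorem limit_GG_eq_zero {L : ℝ} (hL : Tendsto GG atTop (𝓝 L)) : L = 0 := by
  obtain ⟨B, hB⟩ := exists_bound_GG hL
  have h : Tendsto (fun δ : ℝ => ∫ v in Set.Ioi 0, Real.exp (-v) * GG (v / δ)) (𝓝[>] 0)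
      (𝓝 (∫ v in Set.Ioi (0 : ℝ), Real.exp (-v) * L)) := by
    refine tendsto_integral_filter_of_dominated_convergence (fun v => Real.exp (-v) * B)
      (Eventually.of_forall fun δ => ?_) (Eventually.of_forall fun δ => ?_)
      ((integrableOn_exp_neg_Ioi 0).mul_const B) ?_
    · exact ((Real.measurable_exp.comp measurable_neg).mul
        (measurable_GG.comp (measurable_id.div_const δ))).aestronglyMeasurable
    · refine Eventually.of_forall fun v => ?_
      rw [Real.norm_eq_abs, abs_mul, abs_of_pos (Real.exp_pos _)]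
      exact mul_le_mul_of_nonneg_left (hB _) (Real.exp_pos _).le
    · refine (ae_restrict_iff' measurableSet_Ioi).2 (Eventually.of_forall fun v hv => ?_)
      refine (hL.comp ?_).const_mul _
      exact (tendsto_inv_nhdsGT_zero.const_mul_atTop hv).congr fun δ => (div_eq_mul_inv v δ).symm
  rw [integral_mul_const, integral_exp_neg_Ioi_zero, one_mul] at h
  refine tendsto_nhds_unique h (tendsto_log_zeta_add.congr' ?_)
  filter_upwards [self_mem_nhdsWithin] with δ hδ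
  exact (laplace_GG hδ).symm

/-- `∑_{n ≤ x} Λ n / (n log n) = log log x + γ + O(1 / log x)`. -/
theorem mertens_vonMangoldt_gamma {x : ℝ} (hx : 2 ≤ x) :
    |∑ n ∈ Ioc 0 ⌊x⌋₊, vonMangoldt n / (n * Real.log n) -
      (Real.log (Real.log x) + eulerMascheroniConstant)| ≤ 2 * (Real.log 4 + 4) / Real.log x := by
  obtain ⟨M, hM⟩ := mertens_second_vonMangoldt
  have h1 := (tendsto_of_abs_le_div_log hM).comp Real.tendsto_exp_atTop
  have h2 := h1.sub tendsto_sum_inv_sub_log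
  have h3 : Tendsto GG atTop (𝓝 (M - eulerMascheroniConstant)) := by
    refine h2.congr fun u => ?_
    simp only [Function.comp, Real.log_exp, GG, aa]
    ring
  have h4 := limit_GG_eq_zero h3
  rw [← sub_eq_zero.1 h4]
  exact hM x hx

/-- Tail estimate for an absolutely convergent series. -/
theorem abs_tsum_sub_sum_le {u w : ℕ → ℝ} (hu : Summable u) (hw : Summable w)
    (hw0 : ∀ n, 0 ≤ w n) (s : Finset ℕ) {K : ℝ} (hK : 0 ≤ K) (h : ∀ n ∉ s, |u n| ≤ K * w n) :
    |∑' n, u n - ∑ n ∈ s, u n| ≤ K * ∑' n, w n := by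
  rw [← hu.sum_add_tsum_subtype_compl s, add_sub_cancel_left]
  have h1 : ‖∑' x : {x // x ∉ s}, u x‖ ≤ ∑' x : {x // x ∉ s}, K * w x :=
    tsum_of_norm_bounded ((hw.mul_left K).subtype _).hasSum fun x => h x x.2
  refine h1.trans ?_
  rw [tsum_mul_left]
  exact mul_le_mul_of_nonneg_left (hw.tsum_subtype_le w _ hw0) hK

/-- `Λ n / (n log n)` restricted to non-primes. -/
noncomputable def bb (n : ℕ) : ℝ := if n.Prime then 0 else aa n

/-- `-log (1 - 1/p) - 1/p` on primes. -/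
noncomputable def rr (n : ℕ) : ℝ := if n.Prime then -Real.log (1 - 1 / (n : ℝ)) - 1 / n else 0

theorem abs_bb_le {x : ℝ} (hx : 1 < x) {n : ℕ} (hn : n ≤ 1 ∨ x ≤ n) :
    |bb n| ≤ (1 / Real.log x) * ((if n.Prime then 0 else vonMangoldt n) / (n : ℝ)) := by
  have hlx := Real.log_pos hx
  have h0 : 0 ≤ vonMangoldt n := vonMangoldt_nonneg
  unfold bb
  split_ifs with h
  · simp
  rw [abs_of_nonneg (aa_nonneg n)]
  rcases hn with hn | hn
  · interval_cases n <;> simp [aa]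
  · have h1 : Real.log x ≤ Real.log n := Real.log_le_log (by linarith) hn
    have h2 : (0 : ℝ) < n := by linarith
    rw [aa, div_mul_div_comm, one_mul, mul_comm (Real.log x)]
    gcongr

theorem summable_bb : Summable bb := by
  refine Summable.of_norm_bounded (summable_nonprime_vonMangoldt_div.mul_left (1 / Real.log 2))
    fun n => abs_bb_le (by norm_num) ?_
  rcases le_or_gt n 1 with h | h
  · exact Or.inl h
  · exact Or.inr (by exact_mod_cast h)

theorem abs_rr_le (n : ℕ) : |rr n| ≤ 2 * (1 / (n : ℝ) ^ 2) := by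
  unfold rr
  split_ifs with h
  · have h2 : (2 : ℝ) ≤ n := by exact_mod_cast h.two_le
    have h3 : (1 : ℝ) / n ≤ 1 / 2 := by gcongr
    have h4 : (0 : ℝ) < 1 / n := by positivity
    have h5 := Real.abs_log_sub_add_sum_range_le (x := 1 / (n : ℝ))
      (by rw [abs_of_pos h4]; linarith) 1
    simp only [range_one, sum_singleton, zero_add, pow_one, Nat.cast_zero, div_one] at h5
    rw [abs_of_pos h4] at h5
    rw [← abs_neg]
    calc _ = |1 / (n : ℝ) + Real.log (1 - 1 / (n : ℝ))| := by congr 1; ring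
      _ ≤ _ := h5
      _ ≤ (1 / (n : ℝ)) ^ (1 + 1) / (1 / 2) := by gcongr; linarith
      _ = _ := by ring
  · simp only [abs_zero]; positivity

theorem summable_rr : Summable rr :=
  Summable.of_norm_bounded ((Real.summable_one_div_nat_pow.2 one_lt_two).mul_left 2) abs_rr_le

theorem abs_rr_le' {x : ℝ} (hx : 1 < x) {n : ℕ} (hn : n ≤ 1 ∨ x ≤ n) :
    |rr n| ≤ (1 / Real.log x) * (4 * (1 / (n : ℝ) ^ (3 / 2 : ℝ))) := by
  have hlx := Real.log_pos hx
  rcases hn with hn | hn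
  · have : ¬ n.Prime := fun h => by have := h.two_le; omega
    simp only [rr, this, if_false, abs_zero]
    positivity
  refine (abs_rr_le n).trans ?_
  have h2 : (0 : ℝ) < n := by linarith
  have h1 : Real.log x ≤ 2 * (n : ℝ) ^ (1 / 2 : ℝ) := by
    have := Real.log_le_rpow_div h2.le (ε := 1 / 2) (by norm_num)
    have h3 : Real.log x ≤ Real.log n := Real.log_le_log (by linarith) hn
    linarith
  have h3 : (n : ℝ) ^ 2 = (n : ℝ) ^ (1 / 2 : ℝ) * (n : ℝ) ^ (3 / 2 : ℝ) := by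
    rw [← Real.rpow_add h2]; norm_num
  have h4 : 0 < (n : ℝ) ^ (1 / 2 : ℝ) := by positivity
  have h5 : 0 < (n : ℝ) ^ (3 / 2 : ℝ) := by positivity
  rw [h3]
  calc 2 * (1 / ((n : ℝ) ^ (1 / 2 : ℝ) * (n : ℝ) ^ (3 / 2 : ℝ)))
      = (1 / (2 * (n : ℝ) ^ (1 / 2 : ℝ))) * (4 * (1 / (n : ℝ) ^ (3 / 2 : ℝ))) := by
        field_simp; norm_num
    _ ≤ _ := by gcongr

theorem tsum_bb_prime_pow (p : ℕ) (hp : p.Prime) : ∑' k : ℕ, bb (p ^ (k + 1)) = rr p := by
  have h2 : (2 : ℝ) ≤ p := by exact_mod_cast hp.two_le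
  have h3 : (1 : ℝ) / p ≤ 1 / 2 := by gcongr
  have h4 : (0 : ℝ) < 1 / p := by positivity
  have hlog : 0 < Real.log p := Real.log_pos (by linarith)
  have h := Real.hasSum_pow_div_log_of_abs_lt_one (x := 1 / (p : ℝ))
    (by rw [abs_of_pos h4]; linarith)
  have h' := h.sub (hasSum_ite_eq 0 (1 / (p : ℝ)))
  rw [rr, if_pos hp, ← h'.tsum_eq]
  refine tsum_congr fun k => ?_
  rcases k.eq_zero_or_pos with rfl | hk
  · simp [bb, hp]
  · have hnp : ¬ (p ^ (k + 1)).Prime := Nat.Prime.not_prime_pow (by omega)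
    rw [bb, if_neg hnp, if_neg hk.ne', aa, vonMangoldt_apply_pow (by omega),
      vonMangoldt_apply_prime hp]
    push_cast
    rw [Real.log_pow]
    push_cast
    rw [one_div_pow, sub_zero]
    field_simp

theorem tsum_bb_eq_tsum_rr : ∑' n, bb n = ∑' n, rr n := by
  rw [tsum_eq_tsum_primes_of_support_subset_prime_powers summable_bb ?_]
  · rw [tsum_congr fun p : Nat.Primes => tsum_bb_prime_pow p p.2]
    refine tsum_subtype_eq_of_support_subset (s := {n : ℕ | n.Prime}) fun n hn => ?_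
    by_contra h
    exact hn (by simp only [rr]; exact if_neg h)
  · intro n hn
    by_contra h
    exact hn (by simp [bb, aa, vonMangoldt_eq_zero_iff.2 h])

theorem sum_aa_sub_eq (N : ℕ) :
    ∑ p ∈ (Ioc 0 N).filter Nat.Prime, -Real.log (1 - 1 / (p : ℝ)) =
      ∑ n ∈ Ioc 0 N, aa n - ∑ n ∈ Ioc 0 N, bb n + ∑ n ∈ Ioc 0 N, rr n := by
  rw [sum_filter, ← sum_sub_distrib, ← sum_add_distrib]
  refine sum_congr rfl fun n _ => ?_
  unfold bb rr
  split_ifs with h
  · have hlog : 0 < Real.log n := Real.log_pos (by exact_mod_cast h.one_lt)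
    have : aa n = 1 / n := by
      rw [aa, vonMangoldt_apply_prime h]
      field_simp
    rw [this]; ring
  · ring

/-- **Mertens' third theorem**, logarithmic form with error term:
`∑_{p ≤ x} -log (1 - 1/p) = log log x + γ + O(1 / log x)`. -/
theorem mertens_third_log : ∃ C : ℝ, 0 < C ∧ ∀ x : ℝ, 2 ≤ x →
    |∑ p ∈ (Ioc 0 ⌊x⌋₊).filter Nat.Prime, -Real.log (1 - 1 / (p : ℝ)) -
      (Real.log (Real.log x) + eulerMascheroniConstant)| ≤ C / Real.log x := by
  set T₁ := ∑' n : ℕ, (if n.Prime then 0 else vonMangoldt n) / (n : ℝ) with hT₁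
  set T₂ := ∑' n : ℕ, 4 * (1 / (n : ℝ) ^ (3 / 2 : ℝ)) with hT₂
  have hnn : ∀ n : ℕ, 0 ≤ (if n.Prime then 0 else vonMangoldt n) / (n : ℝ) := fun n => by
    have : 0 ≤ vonMangoldt n := vonMangoldt_nonneg
    split_ifs <;> positivity
  have h1 : 0 ≤ T₁ := tsum_nonneg hnn
  have h2 : 0 ≤ T₂ := tsum_nonneg fun n => by positivity
  have h4 : 0 ≤ Real.log 4 := Real.log_nonneg (by norm_num)
  refine ⟨2 * (Real.log 4 + 4) + T₁ + T₂, by positivity, fun x hx => ?_⟩
  have hlx : 0 < Real.log x := Real.log_pos (by linarith)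
  have hout : ∀ n ∉ Ioc 0 ⌊x⌋₊, n ≤ 1 ∨ x ≤ n := fun n hn => by
    rcases n.eq_zero_or_pos with rfl | hn0
    · simp
    · right
      have : ⌊x⌋₊ < n := by
        by_contra h
        exact hn (mem_Ioc.2 ⟨hn0, not_lt.1 h⟩)
      exact ((Nat.floor_lt (by linarith)).1 this).le
  have e1 := abs_tsum_sub_sum_le summable_bb summable_nonprime_vonMangoldt_div hnn (Ioc 0 ⌊x⌋₊)
    (K := 1 / Real.log x) (by positivity) fun n hn => abs_bb_le (by linarith) (hout n hn)
  have e2 := abs_tsum_sub_sum_le summable_rr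
    ((Real.summable_one_div_nat_rpow.2 (by norm_num : (1 : ℝ) < 3 / 2)).mul_left 4)
    (fun n => by positivity) (Ioc 0 ⌊x⌋₊)
    (K := 1 / Real.log x) (by positivity) fun n hn => abs_rr_le' (by linarith) (hout n hn)
  have e3 := mertens_vonMangoldt_gamma hx
  rw [← hT₁] at e1
  rw [← hT₂, ← tsum_bb_eq_tsum_rr] at e2
  rw [sum_aa_sub_eq]
  have e4 : (2 * (Real.log 4 + 4) + T₁ + T₂) / Real.log x =
      2 * (Real.log 4 + 4) / Real.log x + 1 / Real.log x * T₁ + 1 / Real.log x * T₂ := by ring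
  rw [e4]
  change |∑ n ∈ Ioc 0 ⌊x⌋₊, aa n - _| ≤ _ at e3
  rw [abs_le] at e1 e2 e3 ⊢
  constructor <;> linarith [e1.1, e1.2, e2.1, e2.2, e3.1, e3.2]

theorem prod_one_sub_inv_eq_exp (N : ℕ) :
    ∏ p ∈ (Ioc 0 N).filter Nat.Prime, (1 - 1 / (p : ℝ)) =
      Real.exp (-∑ p ∈ (Ioc 0 N).filter Nat.Prime, -Real.log (1 - 1 / (p : ℝ))) := by
  rw [← sum_neg_distrib, Real.exp_sum]
  refine prod_congr rfl fun p hp => ?_
  have h2 : (2 : ℝ) ≤ p := by exact_mod_cast (mem_filter.1 hp).2.two_le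
  have h3 : (1 : ℝ) / p ≤ 1 / 2 := by gcongr
  rw [neg_neg, Real.exp_log (by linarith)]

theorem log_mul_prod_eq_exp {x : ℝ} (hx : 1 < x) :
    Real.log x * ∏ p ∈ (Ioc 0 ⌊x⌋₊).filter Nat.Prime, (1 - 1 / (p : ℝ)) =
      Real.exp (-(∑ p ∈ (Ioc 0 ⌊x⌋₊).filter Nat.Prime, -Real.log (1 - 1 / (p : ℝ)) -
        Real.log (Real.log x))) := by
  rw [prod_one_sub_inv_eq_exp, neg_sub, sub_eq_add_neg, Real.exp_add,
    Real.exp_log (Real.log_pos hx)]

/-- **Mertens' third theorem**: `log x * ∏_{p ≤ x} (1 - 1/p) → e^{-γ}`. -/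
theorem mertens_third :
    Tendsto (fun x : ℝ => Real.log x * ∏ p ∈ (Ioc 0 ⌊x⌋₊).filter Nat.Prime, (1 - 1 / (p : ℝ)))
      atTop (𝓝 (Real.exp (-eulerMascheroniConstant))) := by
  obtain ⟨C, -, hC⟩ := mertens_third_log
  refine ((tendsto_of_abs_le_div_log hC).neg.rexp).congr' ?_
  filter_upwards [eventually_gt_atTop 1] with x hx
  exact (log_mul_prod_eq_exp hx).symm

/-- Mertens' third theorem with a multiplicative error `exp (O(1 / log x))`. -/
theorem mertens_third_exp_bounds : ∃ C : ℝ, 0 < C ∧ ∀ x : ℝ, 2 ≤ x →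
    Real.exp (-eulerMascheroniConstant - C / Real.log x) / Real.log x ≤
      ∏ p ∈ (Ioc 0 ⌊x⌋₊).filter Nat.Prime, (1 - 1 / (p : ℝ)) ∧
    ∏ p ∈ (Ioc 0 ⌊x⌋₊).filter Nat.Prime, (1 - 1 / (p : ℝ)) ≤
      Real.exp (-eulerMascheroniConstant + C / Real.log x) / Real.log x := by
  obtain ⟨C, hC0, hC⟩ := mertens_third_log
  refine ⟨C, hC0, fun x hx => ?_⟩
  have hlx : 0 < Real.log x := Real.log_pos (by linarith)
  have h := hC x hx
  rw [abs_le] at h
  rw [div_le_iff₀ hlx, le_div_iff₀ hlx, mul_comm, log_mul_prod_eq_exp (by linarith)]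
  constructor <;> apply Real.exp_le_exp.2 <;> linarith [h.1, h.2]

/-- Two-sided Chebyshev-type bounds for the Mertens product. -/
theorem mertens_third_bounds : ∃ c C : ℝ, 0 < c ∧ 0 < C ∧ ∀ x : ℝ, 2 ≤ x →
    c / Real.log x ≤ ∏ p ∈ (Ioc 0 ⌊x⌋₊).filter Nat.Prime, (1 - 1 / (p : ℝ)) ∧
    ∏ p ∈ (Ioc 0 ⌊x⌋₊).filter Nat.Prime, (1 - 1 / (p : ℝ)) ≤ C / Real.log x := by
  obtain ⟨C, hC0, hC⟩ := mertens_third_exp_bounds
  refine ⟨Real.exp (-eulerMascheroniConstant - C / Real.log 2),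
    Real.exp (-eulerMascheroniConstant + C / Real.log 2), Real.exp_pos _, Real.exp_pos _,
    fun x hx => ?_⟩
  have hl2 : 0 < Real.log 2 := Real.log_pos (by norm_num)
  have hlx : Real.log 2 ≤ Real.log x := Real.log_le_log (by norm_num) hx
  have h1 : C / Real.log x ≤ C / Real.log 2 := by gcongr
  obtain ⟨h2, h3⟩ := hC x hx
  have hlx' : 0 ≤ Real.log x := by linarith
  refine ⟨le_trans ?_ h2, h3.trans ?_⟩
  · exact div_le_div_of_nonneg_right (Real.exp_le_exp.2 (by linarith)) hlx'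
  · exact div_le_div_of_nonneg_right (Real.exp_le_exp.2 (by linarith)) hlx'

/-- `∑_{p ≤ x} 1/p - log log x` converges (to the Meissel–Mertens constant). -/
theorem mertens_second_tendsto : ∃ M : ℝ,
    Tendsto (fun x : ℝ => ∑ p ∈ (Ioc 0 ⌊x⌋₊).filter Nat.Prime, (1 : ℝ) / p -
      Real.log (Real.log x)) atTop (𝓝 M) := by
  obtain ⟨M, C, -, h⟩ := mertens_second
  exact ⟨M, tendsto_of_abs_le_div_log h⟩

/-- Reciprocal prime sums over an interval: `∑_{y < p ≤ x} 1/p = log (log x / log y) + O(1/log y)`. -/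
theorem sum_inv_prime_Ioc : ∃ C : ℝ, 0 < C ∧ ∀ x y : ℝ, 2 ≤ y → y ≤ x →
    |∑ p ∈ (Ioc ⌊y⌋₊ ⌊x⌋₊).filter Nat.Prime, (1 : ℝ) / p -
      Real.log (Real.log x / Real.log y)| ≤ C / Real.log y := by
  obtain ⟨M, C, hC0, h⟩ := mertens_second
  refine ⟨2 * C, by positivity, fun x y hy hxy => ?_⟩
  have hly : 0 < Real.log y := Real.log_pos (by linarith)
  have hl : Real.log y ≤ Real.log x := Real.log_le_log (by linarith) hxy
  have h1 := h x (hy.trans hxy)
  have h2 := h y hy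
  have h3 : C / Real.log x ≤ C / Real.log y := by gcongr
  have h4 : ∑ p ∈ (Ioc 0 ⌊x⌋₊).filter Nat.Prime, (1 : ℝ) / p =
      ∑ p ∈ (Ioc 0 ⌊y⌋₊).filter Nat.Prime, (1 : ℝ) / p +
        ∑ p ∈ (Ioc ⌊y⌋₊ ⌊x⌋₊).filter Nat.Prime, (1 : ℝ) / p := by
    simp only [sum_filter]
    exact (sum_Ioc_consecutive _ (Nat.zero_le _) (Nat.floor_le_floor hxy)).symm
  rw [Real.log_div (by linarith) hly.ne']
  rw [h4] at h1
  have h5 : 2 * C / Real.log y = C / Real.log y + C / Real.log y := by ring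
  rw [abs_le] at h1 h2 ⊢
  constructor <;> linarith [h1.1, h1.2, h2.1, h2.2]

end Pool.Agent.Lib.Mertens
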